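import Pool.Agent.KS6_49.PA.Main

set_option autoImplicit false

/-! Problem MP_1308e3_lc, question Q1, answered negatively with the exact set of degrees: there is a
computable field `F` with a low ordering such that the sets of natural numbers that compute an
ordered field containing a copy of `F` are exactly the sets of PA degree, and these are also
exactly the sets that are Turing equivalent to an ordering of `F`.

Definitions: `ComputableField`, `IsOrdering`, `orderCode` in
`Pool/Agent/KS6_49/L8/Y548/OF/Pres.lean`; `TLe` (Turing reducibility, through Mathlib's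
`TuringReducible`) and `chi` in `Pool/Agent/KS6_49/L8/Helper227/Defs.lean`; `jump` in
`Pool/Agent/KS6_49/L8/Helper227/RD/Jump.lean`; `IsPA` in `Pool/Agent/KS6_49/PA/Basis.lean`; `ind`,
`FieldIn`, `ordCode` in `Pool/Agent/KS6_49/PA/Main.lean`. -/

namespace Pool.Agent.Results.MP_1308e3_lc.ExactlyPADegrees

open Pool.Agent.Y548.OF Pool.Agent.Helper227 Pool.Agent.KS6_49.PA

/-- A set of natural numbers is low if its Turing jump is Turing reducible to the jump of the
empty set. -/
def LowSet (S : ℕ → Prop) : Prop := TLe (jump (ind S)) (jump (ind fun _ => False))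

/-- There is a computable field `F` such that
* `F` has a low ordering;
* no computable ordered field contains a copy of the field `F`; in particular `F` with the low
  ordering has no computable copy;
* for every set of natural numbers, with characteristic sequence `D`, the following are equivalent:
  `D` has PA degree; some ordering of `F` is Turing equivalent to `D`; some ordering of `F` is
  Turing reducible to `D`; some field computable in `D`, with an ordering computable in `D`,
  contains a copy of the field `F`. -/
theorem result : ∃ F : ComputableField,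
    (∃ lt : F.Carrier → F.Carrier → Prop, IsOrdering lt ∧ LowSet (orderCode lt)) ∧
    (∀ (K : ComputableField) (ltK : K.Carrier → K.Carrier → Prop), IsOrdering ltK →
      ComputablePred (orderCode ltK) → IsEmpty (F.Carrier →+* K.Carrier)) ∧
    ∀ D : ℕ → Bool, List.TFAE [
      IsPA D,
      ∃ lt : F.Carrier → F.Carrier → Prop, IsOrdering lt ∧
        TLe (ind (orderCode lt)) D ∧ TLe D (ind (orderCode lt)),
      ∃ lt : F.Carrier → F.Carrier → Prop, IsOrdering lt ∧ TLe (ind (orderCode lt)) D,
      ∃ (K : FieldIn D) (lt : K.Carrier → K.Carrier → Prop), IsOrdering lt ∧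
        TLe (ind (ordCode lt)) D ∧ Nonempty (F.Carrier →+* K.Carrier)] := by
  classical
  obtain ⟨r, hr⟩ := exists_good
  refine ⟨FC hr, ?_, fun K ltK h1 h2 => ⟨fun f => ?_⟩, fun D => ?_⟩
  · obtain ⟨X, hX, hlow⟩ := exists_low_cone
    refine ⟨ltX hr X, isOrdering_ltX hr hX, ?_⟩
    have h : TLe (ind (orderCode (ltX hr X))) X := tLe_ind_orderCode hr X
    have h2 : (ind fun _ => False) = fun _ : ℕ => false := by
      funext n; simp [ind]
    unfold LowSet
    rw [h2]
    exact h.jump.trans hlow
  · exact not_embed hr K ltK h1 h2 (f.comp (eR hr).symm.toRingHom)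
  · tfae_have 1 → 2 := by
      intro hD
      obtain ⟨X, hX, hXD, κ, hκ, hk⟩ := exists_cone_exact hD
      exact ⟨ltX hr X, isOrdering_ltX hr hX, (tLe_ind_orderCode hr X).trans hXD,
        tLe_of_order hr hX hκ hk⟩
    tfae_have 2 → 3 := by
      rintro ⟨lt, h1, h2, _⟩
      exact ⟨lt, h1, h2⟩
    tfae_have 3 → 4 := by
      rintro ⟨lt, h1, h2⟩
      exact ⟨toIn D (FC hr), lt, h1, h2, ⟨RingHom.id _⟩⟩
    tfae_have 4 → 1 := by
      rintro ⟨K, lt, h1, h2, ⟨χ⟩⟩
      exact pa_of_embed' hr K lt h1 h2 χ
    tfae_finish

end Pool.Agent.Results.MP_1308e3_lc.ExactlyPADegrees
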